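import Pool.Agent.N343.TC.Stm

/-! Project TC (helper343), MP_8dfb46_an: extension of a Lipschitz function by zero (S_EXT). -/

set_option autoImplicit false

open MeasureTheory Set Filter Topology Metric Complex

namespace Pool.Agent.N82.TC.EXT

open Pool.Agent.N343.TC

theorem main : S_EXT := by
  intro K g L hK hL hfr hout
  have key : ∀ x ∈ K, ∀ y, y ∉ K → dist (g x) (g y) ≤ L * dist x y := by
    intro x hx y hy
    obtain ⟨p, hp1, hpa, hpb⟩ := isPreconnected_closed_iff.1
      (convex_segment (𝕜 := ℝ) x y).isPreconnected K (closure Kᶜ) hK isClosed_closure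
      (fun z _ => by
        by_cases hz : z ∈ K
        · exact Or.inl hz
        · exact Or.inr (subset_closure hz))
      ⟨x, left_mem_segment ℝ x y, hx⟩ ⟨y, right_mem_segment ℝ x y, subset_closure hy⟩
    have hp2 : p ∈ frontier K := by
      rw [frontier_eq_closure_inter_closure]
      exact ⟨subset_closure hpa, hpb⟩
    have hpK : p ∈ K := hK.frontier_subset hp2
    have h1 := dist_add_dist_of_mem_segment hp1
    have h2 := hL.dist_le_mul x hx p hpK
    rw [hfr p hp2] at h2
    rw [hout y hy]
    refine h2.trans (mul_le_mul_of_nonneg_left ?_ L.2)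
    have := dist_nonneg (x := p) (y := y)
    linarith
  refine LipschitzWith.of_dist_le_mul fun x y => ?_
  by_cases hx : x ∈ K
  · by_cases hy : y ∈ K
    · exact hL.dist_le_mul x hx y hy
    · exact key x hx y hy
  · by_cases hy : y ∈ K
    · rw [dist_comm (g x), dist_comm x]
      exact key y hy x hx
    · rw [hout x hx, hout y hy, dist_self]
      positivity

end Pool.Agent.N82.TC.EXT
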